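import Pool.Agent.V8H88.RP.Sum

/-!
# Mean values over primes and upper densities
-/

set_option autoImplicit false
set_option linter.unusedSectionVars false

namespace Pool.Agent.V8H88.RP

open NumberField IsDedekindDomain Filter Topology

section

variable {K : Type} [Field K] [NumberField K]

/-- the norm of a prime of `K` -/
noncomputable def nm (v : HeightOneSpectrum (𝓞 K)) : ℝ := ((Ideal.absNorm v.asIdeal : ℕ) : ℝ)

/-- `∑ f(v) N(v)^(-s)` over the primes `v` of `K` -/
noncomputable def wsum (f : HeightOneSpectrum (𝓞 K) → ℝ) (s : ℝ) : ℝ := ∑' v, f v * nm v ^ (-s)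

/-- The function `f` on the primes of `K` has the mean value `m` (Dirichlet mean): the series
`∑ f(v) N(v)^(-s)` converges absolutely for `s > 1`, and its quotient by `∑ N(v)^(-s)` tends to `m` for
`s → 1+`. -/
def HasMean (f : HeightOneSpectrum (𝓞 K) → ℝ) (m : ℝ) : Prop :=
  (∀ s : ℝ, 1 < s → Summable fun v => f v * nm v ^ (-s)) ∧
    Tendsto (fun s => wsum f s / wsum (K := K) (fun _ => 1) s) (𝓝[>] 1) (𝓝 m)

/-- The set `S` of primes of `K` has upper Dirichlet density at most `d`. -/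
def UpperDensityLE (S : Set (HeightOneSpectrum (𝓞 K))) (d : ℝ) : Prop :=
  ∀ ε : ℝ, 0 < ε → ∀ᶠ s in 𝓝[>] (1 : ℝ),
    wsum (S.indicator fun _ => 1) s ≤ (d + ε) * wsum (K := K) (fun _ => 1) s

theorem nm_pos (v : HeightOneSpectrum (𝓞 K)) : 0 < nm v := by
  unfold nm
  exact_mod_cast absNorm_pos v

theorem wt_pos (v : HeightOneSpectrum (𝓞 K)) (s : ℝ) : 0 < nm v ^ (-s) := Real.rpow_pos_of_pos (nm_pos v) _

theorem summable_one {s : ℝ} (hs : 1 < s) :
    Summable fun v : HeightOneSpectrum (𝓞 K) => (1 : ℝ) * nm v ^ (-s) := by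
  simp_rw [one_mul]
  exact summable_absNorm hs

instance : Nonempty (HeightOneSpectrum (𝓞 K)) := by
  obtain ⟨I, hI⟩ := Ideal.exists_maximal (𝓞 K)
  exact ⟨⟨I, hI.isPrime, Ring.ne_bot_of_isMaximal_of_not_isField hI (RingOfIntegers.not_isField K)⟩⟩

theorem wsum_one_pos {s : ℝ} (hs : 1 < s) : 0 < wsum (K := K) (fun _ => 1) s := by
  obtain ⟨v⟩ : Nonempty (HeightOneSpectrum (𝓞 K)) := inferInstance
  exact (summable_one hs).tsum_pos (fun v => by rw [one_mul]; exact (wt_pos v s).le) v
    (by rw [one_mul]; exact wt_pos v s)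

theorem HasMean.const (c : ℝ) : HasMean (K := K) (fun _ => c) c := by
  constructor
  · intro s hs
    have := (summable_one (K := K) hs).mul_left c
    simpa using this
  · refine (tendsto_const_nhds (x := c)).congr' ?_
    filter_upwards [self_mem_nhdsWithin] with s hs
    have h1 : wsum (K := K) (fun _ => c) s = c * wsum (K := K) (fun _ => 1) s := by
      unfold wsum
      rw [← tsum_mul_left]
      exact tsum_congr fun v => by rw [one_mul]
    rw [h1, mul_div_assoc, div_self (wsum_one_pos hs).ne', mul_one]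

theorem HasMean.add {f g : HeightOneSpectrum (𝓞 K) → ℝ} {m n : ℝ} (hf : HasMean f m) (hg : HasMean g n) :
    HasMean (fun v => f v + g v) (m + n) := by
  refine ⟨fun s hs => ?_, (hf.2.add hg.2).congr' ?_⟩
  · have := (hf.1 s hs).add (hg.1 s hs)
    simpa [add_mul] using this
  · filter_upwards [self_mem_nhdsWithin] with s hs
    rw [← add_div]
    congr 1
    unfold wsum
    rw [← (hf.1 s hs).tsum_add (hg.1 s hs)]
    exact tsum_congr fun v => by rw [add_mul]

theorem HasMean.const_mul {f : HeightOneSpectrum (𝓞 K) → ℝ} {m : ℝ} (c : ℝ) (hf : HasMean f m) :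
    HasMean (fun v => c * f v) (c * m) := by
  refine ⟨fun s hs => ?_, (hf.2.const_mul c).congr' ?_⟩
  · have := (hf.1 s hs).mul_left c
    simpa [mul_assoc] using this
  · filter_upwards [self_mem_nhdsWithin] with s hs
    rw [← mul_div_assoc]
    congr 1
    unfold wsum
    rw [← tsum_mul_left]
    exact tsum_congr fun v => by rw [mul_assoc]

theorem HasMean.sum {ι : Type} (T : Finset ι) {f : ι → HeightOneSpectrum (𝓞 K) → ℝ} {m : ι → ℝ}
    (hf : ∀ i ∈ T, HasMean (f i) (m i)) : HasMean (fun v => ∑ i ∈ T, f i v) (∑ i ∈ T, m i) := by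
  classical
  induction T using Finset.induction_on with
  | empty => simpa using HasMean.const (K := K) 0
  | insert i T hi ih =>
    have h1 := (hf i (Finset.mem_insert_self i T)).add
      (ih fun j hj => hf j (Finset.mem_insert_of_mem hj))
    simp_rw [Finset.sum_insert hi]
    exact h1

theorem HasMean.congr {f g : HeightOneSpectrum (𝓞 K) → ℝ} {m n : ℝ} (hf : HasMean f m)
    (h : ∀ v, f v = g v) (h' : m = n) : HasMean g n := by
  have : f = g := funext h
  rw [← this, ← h']
  exact hf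

/-- Chebyshev's inequality -/
theorem HasMean.density {f : HeightOneSpectrum (𝓞 K) → ℝ} {m g : ℝ} (hf : HasMean (fun v => f v ^ 2) m)
    (hg : 0 < g) (S : Set (HeightOneSpectrum (𝓞 K))) (hS : ∀ v ∈ S, g ≤ f v) :
    UpperDensityLE S (m / g ^ 2) := by
  intro ε hε
  have hg2 : 0 < g ^ 2 := by positivity
  have h1 : ∀ᶠ s in 𝓝[>] (1 : ℝ), wsum (fun v => f v ^ 2) s / wsum (K := K) (fun _ => 1) s < m + ε * g ^ 2 :=
    hf.2.eventually_lt_const (by nlinarith)
  filter_upwards [h1, self_mem_nhdsWithin] with s h2 hs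
  have hw := wsum_one_pos (K := K) hs
  rw [div_lt_iff₀ hw] at h2
  have h3 : g ^ 2 * wsum (S.indicator fun _ => 1) s ≤ wsum (fun v => f v ^ 2) s := by
    unfold wsum
    rw [← tsum_mul_left]
    refine Summable.tsum_le_tsum ?_ ?_ (hf.1 s hs)
    · intro v
      have hp := (wt_pos v s).le
      by_cases hv : v ∈ S
      · rw [Set.indicator_of_mem hv, one_mul]
        refine mul_le_mul_of_nonneg_right ?_ hp
        exact pow_le_pow_left₀ hg.le (hS v hv) 2
      · rw [Set.indicator_of_notMem hv, zero_mul, mul_zero]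
        positivity
    · refine Summable.mul_left _ (Summable.of_nonneg_of_le ?_ ?_ (summable_one (K := K) hs))
      · intro v
        exact mul_nonneg (Set.indicator_nonneg (fun _ _ => zero_le_one) v) (wt_pos v s).le
      · intro v
        exact mul_le_mul_of_nonneg_right (Set.indicator_le_self' (fun _ _ => zero_le_one) v) (wt_pos v s).le
  have h4 : g ^ 2 * wsum (S.indicator fun _ => 1) s ≤ g ^ 2 * ((m / g ^ 2 + ε) * wsum (K := K) (fun _ => 1) s) := by
    have e : g ^ 2 * ((m / g ^ 2 + ε) * wsum (K := K) (fun _ => 1) s) = (m + ε * g ^ 2) * wsum (K := K) (fun _ => 1) s := by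
      field_simp
    rw [e]
    exact h3.trans h2.le
  exact le_of_mul_le_mul_left h4 hg2

/-- Cantelli's inequality -/
theorem HasMean.cantelli {f : HeightOneSpectrum (𝓞 K) → ℝ} {m g : ℝ} (hf : HasMean f 0)
    (hf2 : HasMean (fun v => f v ^ 2) m) (hm : 0 ≤ m) (hg : 0 < g) (S : Set (HeightOneSpectrum (𝓞 K)))
    (hS : ∀ v ∈ S, g ≤ f v) : UpperDensityLE S (m / (m + g ^ 2)) := by
  have h1 : HasMean (fun v => (f v + m / g) ^ 2) (m + (m / g) ^ 2) := by
    refine ((hf2.add (hf.const_mul (2 * (m / g)))).add (HasMean.const ((m / g) ^ 2))).congr ?_ ?_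
    · intro v
      ring
    · ring
  have hpos : 0 < g + m / g := by positivity
  have h2 := h1.density hpos S (fun v hv => by linarith [hS v hv])
  have e : (m + (m / g) ^ 2) / (g + m / g) ^ 2 = m / (m + g ^ 2) := by
    have hne : m + g ^ 2 ≠ 0 := by positivity
    have hg' : g ≠ 0 := hg.ne'
    have hne' : g + m / g ≠ 0 := hpos.ne'
    rw [div_eq_div_iff (pow_ne_zero 2 hne') hne]
    field_simp
    ring
  rwa [e] at h2


theorem UpperDensityLE.mono {S T : Set (HeightOneSpectrum (𝓞 K))} {d : ℝ} (h : UpperDensityLE T d)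
    (hST : S ⊆ T) : UpperDensityLE S d := by
  intro ε hε
  filter_upwards [h ε hε, self_mem_nhdsWithin] with s h1 hs
  refine le_trans ?_ h1
  have hsum : ∀ R : Set (HeightOneSpectrum (𝓞 K)),
      Summable fun v => R.indicator (fun _ => (1 : ℝ)) v * nm v ^ (-s) := fun R =>
    Summable.of_nonneg_of_le
      (fun v => mul_nonneg (Set.indicator_nonneg (fun _ _ => zero_le_one) v) (wt_pos v s).le)
      (fun v => mul_le_mul_of_nonneg_right (Set.indicator_le_self' (fun _ _ => zero_le_one) v) (wt_pos v s).le)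
      (summable_one (K := K) hs)
  unfold wsum
  refine Summable.tsum_le_tsum (fun v => ?_) (hsum S) (hsum T)
  exact mul_le_mul_of_nonneg_right
    (Set.indicator_le_indicator_of_subset hST (fun _ => zero_le_one) v) (wt_pos v s).le

/-! ### Eigenvalues -/

/-- `|θ(T_v)|² / N(v)` -/
noncomputable def sqr (θ : HeightOneSpectrum (𝓞 K) → ℂ) (v : HeightOneSpectrum (𝓞 K)) : ℝ :=
  ‖θ v‖ ^ 2 / nm v

/-- the trace of the adjoint lift of `θ` at `v`, for the unitary normalization: `|θ(T_v)|² / N(v) - 1` -/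
noncomputable def ad (θ : HeightOneSpectrum (𝓞 K) → ℂ) (v : HeightOneSpectrum (𝓞 K)) : ℝ := sqr θ v - 1

/-- the trace at `v` of the fourth symmetric power of `θ`, twisted by the inverse square of the central
character: `x² - 3 x + 1` for `x = |θ(T_v)|² / N(v)` -/
noncomputable def sym4 (θ : HeightOneSpectrum (𝓞 K) → ℂ) (v : HeightOneSpectrum (𝓞 K)) : ℝ :=
  sqr θ v ^ 2 - 3 * sqr θ v + 1

/-- The traces of the adjoint lifts and of the (twisted) fourth symmetric powers of the `θ i` are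
orthonormal and orthogonal to `1` in mean over the primes of `K`. -/
structure Orthonormal {ι : Type} (θ : ι → HeightOneSpectrum (𝓞 K) → ℂ) : Prop where
  ad_mean : ∀ i, HasMean (ad (θ i)) 0
  sym4_mean : ∀ i, HasMean (sym4 (θ i)) 0
  ad_ad : ∀ i, HasMean (fun v => ad (θ i) v * ad (θ i) v) 1
  ad_ad' : ∀ i j, i ≠ j → HasMean (fun v => ad (θ i) v * ad (θ j) v) 0
  ad_sym4 : ∀ i j, HasMean (fun v => ad (θ i) v * sym4 (θ j) v) 0
  sym4_sym4 : ∀ i, HasMean (fun v => sym4 (θ i) v * sym4 (θ i) v) 1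
  sym4_sym4' : ∀ i j, i ≠ j → HasMean (fun v => sym4 (θ i) v * sym4 (θ j) v) 0

/-- the Ramanujan–Petersson bound fails for `θ` at `v` -/
def Fails (θ : HeightOneSpectrum (𝓞 K) → ℂ) (v : HeightOneSpectrum (𝓞 K)) : Prop :=
  2 * nm v ^ (1 / 2 : ℝ) < ‖θ v‖

theorem Fails.sqr {θ : HeightOneSpectrum (𝓞 K) → ℂ} {v : HeightOneSpectrum (𝓞 K)} (h : Fails θ v) :
    4 < sqr θ v := by
  unfold RP.sqr
  have h1 := nm_pos v
  rw [lt_div_iff₀ h1]
  have h2 : 0 ≤ 2 * nm v ^ (1 / 2 : ℝ) := by positivity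
  have h3 : (2 * nm v ^ (1 / 2 : ℝ)) ^ 2 < ‖θ v‖ ^ 2 := pow_lt_pow_left₀ h h2 two_ne_zero
  have h4 : (2 * nm v ^ (1 / 2 : ℝ)) ^ 2 = 4 * nm v := by
    rw [mul_pow, ← Real.sqrt_eq_rpow, Real.sq_sqrt h1.le]
    norm_num
  rwa [h4] at h3

theorem Orthonormal.comp {ι κ : Type} {θ : ι → HeightOneSpectrum (𝓞 K) → ℂ} (h : Orthonormal θ)
    (e : κ → ι) (he : Function.Injective e) : Orthonormal (fun i => θ (e i)) where
  ad_mean _ := h.ad_mean _
  sym4_mean _ := h.sym4_mean _
  ad_ad _ := h.ad_ad _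
  ad_ad' _ _ hij := h.ad_ad' _ _ (fun h' => hij (he h'))
  ad_sym4 _ _ := h.ad_sym4 _ _
  sym4_sym4 _ := h.sym4_sym4 _
  sym4_sym4' _ _ hij := h.sym4_sym4' _ _ (fun h' => hij (he h'))

variable {ι : Type} [Fintype ι] {θ : ι → HeightOneSpectrum (𝓞 K) → ℂ}

theorem Orthonormal.density (h : Orthonormal θ) (a b : ℝ) {δ : ℝ} (hδ : 0 < δ)
    (S : Set (HeightOneSpectrum (𝓞 K))) (hS : ∀ v ∈ S, δ ≤ ∑ i, (a * ad (θ i) v + b * sym4 (θ i) v)) :
    UpperDensityLE S (Fintype.card ι * (a ^ 2 + b ^ 2) / (Fintype.card ι * (a ^ 2 + b ^ 2) + δ ^ 2)) := by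
  classical
  have h0 : HasMean (fun v => ∑ i, (a * ad (θ i) v + b * sym4 (θ i) v)) 0 := by
    refine (HasMean.sum Finset.univ (m := fun _ : ι => a * 0 + b * 0) fun i _ =>
      ((h.ad_mean i).const_mul a).add ((h.sym4_mean i).const_mul b)).congr (fun v => rfl) ?_
    simp
  have hij : ∀ i j : ι, HasMean (fun v => (a * ad (θ i) v + b * sym4 (θ i) v) *
      (a * ad (θ j) v + b * sym4 (θ j) v)) (if i = j then a ^ 2 + b ^ 2 else 0) := by
    intro i j
    by_cases hij : i = j
    · subst hij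
      rw [if_pos rfl]
      refine ((((h.ad_ad i).const_mul (a ^ 2)).add ((h.ad_sym4 i i).const_mul (2 * a * b))).add
        ((h.sym4_sym4 i).const_mul (b ^ 2))).congr (fun v => ?_) ?_
      · ring
      · ring
    · rw [if_neg hij]
      refine (((((h.ad_ad' i j hij).const_mul (a ^ 2)).add ((h.ad_sym4 i j).const_mul (a * b))).add
        ((h.ad_sym4 j i).const_mul (a * b))).add
        ((h.sym4_sym4' i j hij).const_mul (b ^ 2))).congr (fun v => ?_) ?_
      · ring
      · ring
  have h2 : HasMean (fun v => (∑ i, (a * ad (θ i) v + b * sym4 (θ i) v)) ^ 2)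
      (Fintype.card ι * (a ^ 2 + b ^ 2)) := by
    refine (HasMean.sum Finset.univ (m := fun i : ι => ∑ j : ι, if i = j then a ^ 2 + b ^ 2 else 0)
      fun i _ => HasMean.sum Finset.univ fun j _ => hij i j).congr (fun v => ?_) ?_
    · rw [sq, Finset.sum_mul_sum]
    · simp only [Finset.sum_ite_eq, Finset.mem_univ, if_true, Finset.sum_const, Finset.card_univ,
        nsmul_eq_mul]
  exact h0.cantelli h2 (by positivity) hδ S hS

/-- all forms fail -/
theorem Orthonormal.all_fail (h : Orthonormal θ) [Nonempty ι] :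
    UpperDensityLE {v | ∀ i, Fails (θ i) v} (1 / (1 + 34 * Fintype.card ι)) := by
  have hr : (0 : ℝ) < Fintype.card ι := by exact_mod_cast Fintype.card_pos
  have h1 := h.density 3 5 (δ := 34 * Fintype.card ι) (by positivity) {v | ∀ i, Fails (θ i) v} (by
    intro v hv
    have h2 : ∀ i ∈ (Finset.univ : Finset ι), (34 : ℝ) ≤ 3 * ad (θ i) v + 5 * sym4 (θ i) v := by
      intro i _
      have h3 := (hv i).sqr
      unfold ad sym4
      nlinarith
    have h4 := Finset.sum_le_sum h2
    rw [Finset.sum_const, Finset.card_univ, nsmul_eq_mul] at h4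
    linarith)
  have e : (Fintype.card ι * ((3 : ℝ) ^ 2 + 5 ^ 2) / (Fintype.card ι * ((3 : ℝ) ^ 2 + 5 ^ 2) +
      (34 * Fintype.card ι) ^ 2)) = 1 / (1 + 34 * Fintype.card ι) := by
    rw [div_eq_div_iff (by positivity) (by positivity)]
    ring
  rwa [e] at h1

/-- a large share of the forms fails -/
theorem Orthonormal.share_fail (h : Orthonormal θ) [Nonempty ι] {ε : ℝ} (hε : 0 < ε) :
    UpperDensityLE {v | (1 / 10 + ε) * Fintype.card ι ≤ Nat.card {i // Fails (θ i) v}}
      (153 / (153 + 5000 * ε ^ 2 * Fintype.card ι)) := by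
  classical
  have hr : (0 : ℝ) < Fintype.card ι := by exact_mod_cast Fintype.card_pos
  have h1 := h.density (5 / 3) 1 (δ := 100 / 9 * ε * Fintype.card ι) (by positivity)
    {v | (1 / 10 + ε) * Fintype.card ι ≤ Nat.card {i // Fails (θ i) v}} (by
    intro v hv
    have hv' : (1 / 10 + ε) * (Fintype.card ι : ℝ) ≤ Nat.card {i // Fails (θ i) v} := hv
    rw [Nat.card_eq_fintype_card, Fintype.card_subtype] at hv'
    have h2 : ∀ i ∈ (Finset.univ : Finset ι), (if Fails (θ i) v then (100 / 9 : ℝ) else 0) - 10 / 9 ≤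
        5 / 3 * ad (θ i) v + 1 * sym4 (θ i) v := by
      intro i _
      unfold ad sym4
      split_ifs with h3
      · have h4 := h3.sqr
        nlinarith
      · nlinarith [sq_nonneg (sqr (θ i) v - 2 / 3)]
    have h4 := Finset.sum_le_sum h2
    rw [Finset.sum_sub_distrib, Finset.sum_ite, Finset.sum_const, Finset.sum_const_zero, Finset.sum_const,
      Finset.card_univ, nsmul_eq_mul, nsmul_eq_mul, add_zero] at h4
    nlinarith)
  have e : (Fintype.card ι * ((5 / 3 : ℝ) ^ 2 + 1 ^ 2) / (Fintype.card ι * ((5 / 3 : ℝ) ^ 2 + 1 ^ 2) +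
      (100 / 9 * ε * Fintype.card ι) ^ 2)) = 153 / (153 + 5000 * ε ^ 2 * Fintype.card ι) := by
    rw [div_eq_div_iff (by positivity) (by positivity)]
    ring
  rwa [e] at h1

omit [Fintype ι] in
/-- infinite families -/
theorem Orthonormal.infinite_fail (h : Orthonormal θ) [Infinite ι] :
    UpperDensityLE {v | ∀ i, Fails (θ i) v} 0 := by
  intro ε hε
  obtain ⟨n, hn⟩ := exists_nat_gt (1 / (34 * (ε / 2)))
  let e : Fin (n + 1) → ι := fun i => Infinite.natEmbedding ι i
  have he : Function.Injective e := fun i j hij => Fin.ext ((Infinite.natEmbedding ι).injective hij)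
  have h1 := ((h.comp e he).all_fail.mono (S := {v | ∀ i, Fails (θ i) v}) fun v hv i => hv (e i))
    (ε / 2) (by positivity)
  filter_upwards [h1, self_mem_nhdsWithin] with s h2 hs
  refine h2.trans (mul_le_mul_of_nonneg_right ?_ (wsum_one_pos hs).le)
  rw [zero_add, Fintype.card_fin]
  have h3 : 1 / (1 + 34 * ((n + 1 : ℕ) : ℝ)) ≤ ε / 2 := by
    rw [div_lt_iff₀ (by positivity)] at hn
    rw [div_le_iff₀ (by positivity)]
    push_cast
    nlinarith
  linarith


omit [Fintype ι] in
/-- two forms -/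
theorem Orthonormal.two_fail (h : Orthonormal θ) {i j : ι} (hij : i ≠ j) :
    UpperDensityLE {v | Fails (θ i) v ∧ Fails (θ j) v} (1 / 100) := by
  have hsq : ∀ (k : ι) (v : HeightOneSpectrum (𝓞 K)), ad (θ k) v * ad (θ k) v = 1 + ad (θ k) v + sym4 (θ k) v := by
    intro k v
    unfold ad sym4
    ring
  have h1 : HasMean (fun v => ((1 + 3 * ad (θ i) v) * (1 + 3 * ad (θ j) v)) ^ 2) 100 := by
    refine (((((((((HasMean.const (K := K) 100).add ((h.ad_mean i).const_mul 150)).add
      ((h.ad_mean j).const_mul 150)).add ((h.sym4_mean i).const_mul 90)).add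
      ((h.sym4_mean j).const_mul 90)).add ((h.ad_ad' i j hij).const_mul 225)).add
      ((h.ad_sym4 i j).const_mul 135)).add ((h.ad_sym4 j i).const_mul 135)).add
      ((h.sym4_sym4' i j hij).const_mul 81)).congr (fun v => ?_) ?_
    · have hi : (1 + 3 * ad (θ i) v) ^ 2 = 10 + 15 * ad (θ i) v + 9 * sym4 (θ i) v := by
        linear_combination 9 * hsq i v
      have hj : (1 + 3 * ad (θ j) v) ^ 2 = 10 + 15 * ad (θ j) v + 9 * sym4 (θ j) v := by
        linear_combination 9 * hsq j v
      rw [mul_pow, hi, hj]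
      ring
    · norm_num
  have h2 := h1.density (g := 100) (by norm_num) {v | Fails (θ i) v ∧ Fails (θ j) v} (by
    rintro v ⟨hi, hj⟩
    have h3 : 10 ≤ 1 + 3 * ad (θ i) v := by
      have := hi.sqr
      unfold ad
      linarith
    have h4 : 10 ≤ 1 + 3 * ad (θ j) v := by
      have := hj.sqr
      unfold ad
      linarith
    nlinarith)
  norm_num at h2 ⊢
  exact h2

end

end Pool.Agent.V8H88.RP
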