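import Mathlib

/-!
# Convergence of the sum of `N v ^ (-s)` over the primes of a number field

(The proof is copied from the starting file `Pool/Agent/K4H74/SC/Sum.lean`.)
-/

set_option autoImplicit false
set_option linter.unusedSectionVars false

namespace Pool.Agent.V8H88.RP

open NumberField Ideal IsDedekindDomain

section primes

variable (K : Type) [Field K] [NumberField K]

/-- the rational prime below -/
noncomputable def bel (q : HeightOneSpectrum (𝓞 K)) : ℕ := absNorm (under ℤ q.asIdeal)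

variable {K}

lemma bel_prime (q : HeightOneSpectrum (𝓞 K)) : (bel K q).Prime := by
  have := q.isPrime
  have : NeZero q.asIdeal := ⟨q.ne_bot⟩
  exact Nat.absNorm_under_prime q.asIdeal

lemma absNorm_pos (q : HeightOneSpectrum (𝓞 K)) : 0 < absNorm q.asIdeal :=
  Nat.pos_of_ne_zero (fun h => q.ne_bot (absNorm_eq_zero_iff.mp h))

lemma bel_le (q : HeightOneSpectrum (𝓞 K)) : bel K q ≤ absNorm q.asIdeal :=
  Nat.le_of_dvd (absNorm_pos q) (Int.absNorm_under_dvd_absNorm q.asIdeal)

lemma two_le_absNorm (q : HeightOneSpectrum (𝓞 K)) : 2 ≤ absNorm q.asIdeal :=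
  (bel_prime q).two_le.trans (bel_le q)

lemma fibre_card (T : Finset (HeightOneSpectrum (𝓞 K))) (n : ℕ) :
    (T.filter (fun q => bel K q = n)).card ≤ Module.finrank ℚ K := by
  classical
  by_cases hn : n.Prime
  · let I : Ideal ℤ := span {(n : ℤ)}
    have hI : I ≠ ⊥ := by
      simp only [I, ne_eq, span_singleton_eq_bot]
      exact_mod_cast hn.ne_zero
    have hIp : I.IsPrime := (span_singleton_prime (by exact_mod_cast hn.ne_zero)).mpr
      (Nat.prime_iff_prime_int.mp hn)
    have hIm : I.IsMaximal := hIp.isMaximal hI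
    have h1 := Ideal.card_primesOverFinset_le_finrank (R := ℤ) (S := 𝓞 K) (K := ℚ) (L := K)
      (p := I) hI
    refine le_trans ?_ h1
    refine Finset.card_le_card_of_injOn (fun q => q.asIdeal) ?_ ?_
    · intro q hq
      rw [Finset.mem_coe, Finset.mem_filter] at hq
      rw [Finset.mem_coe, IsDedekindDomain.mem_primesOverFinset_iff hI]
      refine ⟨q.isPrime, ⟨?_⟩⟩
      have h2 : span {((absNorm (under ℤ q.asIdeal) : ℕ) : ℤ)} = under ℤ q.asIdeal :=
        Int.ideal_span_absNorm_eq_self _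
      rw [← h2]
      change I = span {((bel K q : ℕ) : ℤ)}
      rw [hq.2]
    · intro q _ q' _ h
      exact HeightOneSpectrum.ext h
  · have h1 : T.filter (fun q => bel K q = n) = ∅ := by
      rw [Finset.filter_eq_empty_iff]
      intro q _ h
      exact hn (h ▸ bel_prime q)
    rw [h1, Finset.card_empty]
    exact Nat.zero_le _

/-- the sum over the primes converges -/
theorem summable_absNorm {t : ℝ} (ht : 1 < t) :
    Summable (fun q : HeightOneSpectrum (𝓞 K) => ((absNorm q.asIdeal : ℕ) : ℝ) ^ (-t)) := by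
  classical
  have h0 : Summable (fun n : ℕ => ((n : ℕ) : ℝ) ^ (-t)) :=
    Real.summable_nat_rpow.mpr (by linarith)
  have hpos : ∀ n : ℕ, 0 ≤ ((n : ℕ) : ℝ) ^ (-t) := fun n => Real.rpow_nonneg (Nat.cast_nonneg _) _
  refine summable_of_sum_le (c := Module.finrank ℚ K * ∑' n : ℕ, ((n : ℕ) : ℝ) ^ (-t))
    (fun q => hpos _) fun T => ?_
  calc ∑ q ∈ T, ((absNorm q.asIdeal : ℕ) : ℝ) ^ (-t)
      ≤ ∑ q ∈ T, ((bel K q : ℕ) : ℝ) ^ (-t) := by
        refine Finset.sum_le_sum fun q _ => ?_
        refine Real.rpow_le_rpow_of_nonpos ?_ ?_ (by linarith)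
        · exact_mod_cast (bel_prime q).pos
        · exact_mod_cast bel_le q
    _ = ∑ n ∈ T.image (bel K), ∑ q ∈ T.filter (fun q => bel K q = n),
          ((bel K q : ℕ) : ℝ) ^ (-t) :=
        (Finset.sum_fiberwise_of_maps_to (fun q hq => Finset.mem_image_of_mem _ hq) _).symm
    _ = ∑ n ∈ T.image (bel K), ((T.filter (fun q => bel K q = n)).card : ℝ) *
          ((n : ℕ) : ℝ) ^ (-t) := by
        refine Finset.sum_congr rfl fun n _ => ?_
        rw [← nsmul_eq_mul, ← Finset.sum_const]
        refine Finset.sum_congr rfl fun q hq => ?_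
        rw [(Finset.mem_filter.mp hq).2]
    _ ≤ ∑ n ∈ T.image (bel K), (Module.finrank ℚ K : ℝ) * ((n : ℕ) : ℝ) ^ (-t) := by
        refine Finset.sum_le_sum fun n _ => ?_
        refine mul_le_mul_of_nonneg_right ?_ (hpos n)
        exact_mod_cast fibre_card T n
    _ = (Module.finrank ℚ K : ℝ) * ∑ n ∈ T.image (bel K), ((n : ℕ) : ℝ) ^ (-t) := by
        rw [Finset.mul_sum]
    _ ≤ _ := by
        refine mul_le_mul_of_nonneg_left ?_ (Nat.cast_nonneg _)
        exact h0.sum_le_tsum _ (fun n _ => hpos n)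

end primes

end Pool.Agent.V8H88.RP
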